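import Pool.Agent.Helper71.ST.Defs

/-! # Project ST, block I: the integrals of `EE` -/

set_option autoImplicit false

namespace Pool.Agent.Helper47.ST

open MeasureTheory
open Pool.Agent.Helper99.MS (EE XX XX_le_sq XX_le_sq_pos XX_ge_sq XX_nonpos XX_le EE_pos EE_add EE_anti EE_cont EE_le_one)
open Pool.Agent.Helper71.ST

theorem XX_one (s : ℝ) : XX s ≤ 1 - |s| := by
  rcases le_total 0 s with h | h
  · rw [abs_of_nonneg h]
    unfold XX
    have := Real.quadratic_le_exp_of_nonneg h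
    nlinarith [sq_nonneg (s - 1)]
  · rw [abs_of_nonpos h]
    have := XX_le s
    linarith

theorem EE_four (s : ℝ) : EE 4 s ≤ Real.exp 4 * Real.exp (-(4 * |s|)) := by
  rw [← Real.exp_add]
  unfold EE
  apply Real.exp_le_exp.2
  have := XX_one s
  linarith

theorem XX_far {r : ℝ} (hr : 0 < r) (hr1 : r ≤ 1) {s : ℝ} (hs : r ≤ |s|) : XX s ≤ -(r ^ 2 / 4) := by
  have hr2 : r ^ 2 ≤ s ^ 2 := by
    rw [← sq_abs s]
    exact pow_le_pow_left₀ hr.le hs 2
  rcases le_total |s| 1 with h1 | h1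
  · have := XX_le_sq h1
    linarith
  · rcases le_total 0 s with h | h
    · have := XX_le_sq_pos h
      nlinarith [sq_nonneg s]
    · rw [abs_of_nonpos h] at h1
      have h2 : XX (-1) ≤ -((-1 : ℝ) ^ 2 / 4) := XX_le_sq (by simp)
      have h3 : XX s ≤ XX (-1) := by
        unfold XX
        have e1 : Real.exp s = Real.exp (-1) * Real.exp (s + 1) := by
          rw [← Real.exp_add]; congr 1; ring
        have e2 := Real.add_one_le_exp (s + 1)
        have e3 : Real.exp (-1) ≤ 1 := Real.exp_le_one_iff.2 (by norm_num)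
        have e4 := Real.exp_pos (-1)
        have e5 : Real.exp (-1) * (s + 1 + 1) ≤ Real.exp s := by
          rw [e1]
          exact mul_le_mul_of_nonneg_left e2 e4.le
        nlinarith
      have h4 : r ^ 2 ≤ 1 := by nlinarith
      linarith

theorem XX_far' {ρ : ℝ} (hρ : 1 ≤ ρ) {s : ℝ} (hs : ρ ≤ |s|) : XX s ≤ -(ρ / 4) := by
  rcases le_total 0 s with h | h
  · rw [abs_of_nonneg h] at hs
    have := XX_le_sq_pos h
    nlinarith
  · rw [abs_of_nonpos h] at hs
    unfold XX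
    have e1 : Real.exp s = Real.exp (-1) * Real.exp (s + 1) := by
      rw [← Real.exp_add]; congr 1; ring
    have e2 := Real.add_one_le_exp (s + 1)
    have e4 := Real.exp_pos (-1)
    have e5 : Real.exp (-1) * (s + 1 + 1) ≤ Real.exp s := by
      rw [e1]
      exact mul_le_mul_of_nonneg_left e2 e4.le
    have e6 : Real.exp (-1) ≤ 0.3679 := (Real.exp_neg_one_lt_d9.le).trans (by norm_num)
    have e7 : 0.3678 ≤ Real.exp (-1) := le_trans (by norm_num) Real.exp_neg_one_gt_d9.le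
    nlinarith

theorem EE_pt {m r : ℝ} (hm : 4 ≤ m) (hr : 0 < r) (hr1 : r ≤ 1) {s : ℝ} (hs : r ≤ |s|) :
    EE m s ≤ Real.exp 4 * Real.exp (-(4 * |s|)) * Real.exp (-((m - 4) * r ^ 2 / 4)) := by
  have e : m = 4 + (m - 4) := by ring
  conv_lhs => rw [e, EE_add]
  apply mul_le_mul (EE_four s) _ (EE_pos _ _).le (by positivity)
  unfold EE
  apply Real.exp_le_exp.2
  have := XX_far hr hr1 hs
  nlinarith

theorem EE_pt' {m ρ : ℝ} (hm : 4 ≤ m) (hρ : 1 ≤ ρ) {s : ℝ} (hs : ρ ≤ |s|) :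
    EE m s ≤ Real.exp 4 * Real.exp (-(4 * |s|)) * Real.exp (-((m - 4) * ρ / 4)) := by
  have e : m = 4 + (m - 4) := by ring
  conv_lhs => rw [e, EE_add]
  apply mul_le_mul (EE_four s) _ (EE_pos _ _).le (by positivity)
  unfold EE
  apply Real.exp_le_exp.2
  have := XX_far' hρ hs
  nlinarith

theorem exp_abs_int {c : ℝ} (hc : 0 < c) : Integrable (fun s : ℝ => Real.exp (-(c * |s|))) ∧
    ∫ s : ℝ, Real.exp (-(c * |s|)) = 2 / c := by
  have h1 : IntegrableOn (fun s : ℝ => Real.exp (-(c * |s|))) (Set.Ioi 0) := by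
    refine (integrableOn_exp_mul_Ioi (show -c < 0 by linarith) 0).congr_fun ?_ measurableSet_Ioi
    intro s hs
    have hs' : (0:ℝ) < s := hs
    simp only
    rw [abs_of_pos hs', neg_mul]
  have h2 : IntegrableOn (fun s : ℝ => Real.exp (-(c * |s|))) (Set.Iic 0) := by
    refine (integrableOn_exp_mul_Iic hc 0).congr_fun ?_ measurableSet_Iic
    intro s hs
    have hs' : s ≤ 0 := hs
    simp only
    rw [abs_of_nonpos hs']
    congr 1
    ring
  have hi : Integrable (fun s : ℝ => Real.exp (-(c * |s|))) := by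
    rw [← integrableOn_univ, ← Set.Iic_union_Ioi (a := (0:ℝ))]
    exact h2.union h1
  refine ⟨hi, ?_⟩
  have h3 := integral_comp_abs (f := fun x : ℝ => Real.exp (-(c * x)))
  rw [h3]
  have h4 : ∫ x in Set.Ioi (0:ℝ), Real.exp (-(c * x)) = 1 / c := by
    have := integral_exp_mul_Ioi (show -c < 0 by linarith) 0
    simp only [neg_mul] at this
    rw [this]
    simp [neg_div_neg_eq]
  rw [h4]
  ring

theorem EE_int_c {m c : ℝ} (hm : 4 ≤ m) (hc : c ≤ 2) : Integrable (fun s => Real.exp (c * |s|) * EE m s) := by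
  refine Integrable.mono' ((exp_abs_int (show (0:ℝ) < 2 by norm_num)).1.const_mul (Real.exp 4)) ?_ ?_
  · exact ((by fun_prop : Continuous fun s : ℝ => Real.exp (c * |s|)).mul (EE_cont m)).aestronglyMeasurable
  · apply Filter.Eventually.of_forall
    intro s
    rw [Real.norm_eq_abs, abs_of_nonneg (mul_nonneg (Real.exp_pos _).le (EE_pos _ _).le)]
    have h1 : EE m s ≤ Real.exp 4 * Real.exp (-(4 * |s|)) := (EE_anti hm s).trans (EE_four s)
    have hs := abs_nonneg s
    calc Real.exp (c * |s|) * EE m s ≤ Real.exp (c * |s|) * (Real.exp 4 * Real.exp (-(4 * |s|))) :=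
          mul_le_mul_of_nonneg_left h1 (Real.exp_pos _).le
      _ = Real.exp 4 * Real.exp (c * |s| + -(4 * |s|)) := by rw [Real.exp_add]; ring
      _ ≤ _ := by
          apply mul_le_mul_of_nonneg_left _ (Real.exp_pos _).le
          apply Real.exp_le_exp.2
          nlinarith

theorem EE_int {m : ℝ} (hm : 4 ≤ m) : Integrable (fun s => Real.exp (2 * |s|) * EE m s) := EE_int_c hm le_rfl

theorem EE_int0 {m : ℝ} (hm : 4 ≤ m) : Integrable (EE m) := by
  have := EE_int_c (c := 0) hm (by norm_num)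
  simpa using this

theorem I0_ge {m : ℝ} (hm : 4 ≤ m) : 1 / (2 * √m) ≤ I0 m := by
  have hsm : 2 ≤ √m := by
    rw [show (2:ℝ) = √4 by rw [show (4:ℝ) = 2 ^ 2 by norm_num, Real.sqrt_sq (by norm_num)]]
    exact Real.sqrt_le_sqrt hm
  have hs0 : 0 < √m := by linarith
  have hsq : √m ^ 2 = m := Real.sq_sqrt (by linarith)
  set c : ℝ := 1 / (2 * √m) with hc
  have hc0 : 0 < c := by positivity
  have hc1 : c ≤ 1 := by
    rw [hc, div_le_one (by positivity)]
    linarith
  have hmc : m * c ^ 2 = 1 / 4 := by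
    rw [hc, div_pow, mul_pow, hsq]
    field_simp
    norm_num
  have h1 : ∀ s ∈ Set.Icc (-c) c, (1/2 : ℝ) ≤ EE m s := by
    intro s hs
    have hs1 : |s| ≤ c := abs_le.2 hs
    have h2 := XX_ge_sq (hs1.trans hc1)
    have h3 : s ^ 2 ≤ c ^ 2 := by
      rw [← sq_abs s]
      exact pow_le_pow_left₀ (abs_nonneg s) hs1 2
    have h4 : -(1/4) ≤ m * XX s := by nlinarith
    unfold EE
    have h5 := Real.add_one_le_exp (m * XX s)
    linarith
  have h6 : ∫ s in Set.Icc (-c) c, (1/2 : ℝ) ≤ ∫ s in Set.Icc (-c) c, EE m s :=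
    setIntegral_mono_on (integrableOn_const (by simp)) (EE_int0 hm).integrableOn measurableSet_Icc h1
  have h7 : ∫ s in Set.Icc (-c) c, EE m s ≤ I0 m :=
    setIntegral_le_integral (EE_int0 hm) (Filter.Eventually.of_forall fun s => (EE_pos m s).le)
  have h8 : ∫ s in Set.Icc (-c) c, (1/2 : ℝ) = c := by
    rw [setIntegral_const, Measure.real, Real.volume_Icc, ENNReal.toReal_ofReal (by linarith), smul_eq_mul]
    ring
  linarith

theorem tail_aux {m A : ℝ} (hm : 4 ≤ m) (hA : 0 ≤ A) {S : Set ℝ} (hS : MeasurableSet S)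
    (h : ∀ s ∈ S, EE m s ≤ Real.exp 4 * Real.exp (-(4 * |s|)) * A) :
    ∫ s in S, Real.exp (2 * |s|) * EE m s ≤ 60 * A := by
  obtain ⟨i2, t2⟩ := exp_abs_int (show (0:ℝ) < 2 by norm_num)
  have h1 : ∫ s in S, Real.exp (2 * |s|) * EE m s ≤ ∫ s in S, Real.exp 4 * A * Real.exp (-(2 * |s|)) := by
    apply setIntegral_mono_on (EE_int hm).integrableOn (i2.const_mul _).integrableOn hS
    intro s hs
    calc Real.exp (2 * |s|) * EE m s ≤ Real.exp (2 * |s|) * (Real.exp 4 * Real.exp (-(4 * |s|)) * A) :=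
          mul_le_mul_of_nonneg_left (h s hs) (Real.exp_pos _).le
      _ = Real.exp 4 * A * Real.exp (2 * |s| + -(4 * |s|)) := by rw [Real.exp_add]; ring
      _ = _ := by congr 2; ring
  have h2 : ∫ s in S, Real.exp 4 * A * Real.exp (-(2 * |s|)) ≤ ∫ s, Real.exp 4 * A * Real.exp (-(2 * |s|)) :=
    setIntegral_le_integral (i2.const_mul _) (Filter.Eventually.of_forall fun s => by positivity)
  have h2' : ∫ s, Real.exp 4 * A * Real.exp (-(2 * |s|)) = Real.exp 4 * A * (2 / 2) := by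
    rw [integral_const_mul, t2]
  rw [h2'] at h2
  have h3 : Real.exp 4 ≤ 60 := by
    have : Real.exp 4 = Real.exp 1 ^ 4 := by rw [← Real.exp_nat_mul]; norm_num
    rw [this]
    have h4 := Real.exp_one_lt_d9
    calc Real.exp 1 ^ 4 ≤ 2.7182818286 ^ 4 := pow_le_pow_left₀ (Real.exp_pos _).le h4.le 4
      _ ≤ 60 := by norm_num
  have h5 : Real.exp 4 * A * (2 / 2) ≤ 60 * A := by
    rw [div_self two_ne_zero, mul_one]
    exact mul_le_mul_of_nonneg_right h3 hA
  linarith

theorem meas_far (r : ℝ) : MeasurableSet {s : ℝ | r < |s|} :=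
  measurableSet_lt measurable_const (by fun_prop)

theorem EE_tail {m r : ℝ} (hm : 4 ≤ m) (hr : 0 < r) (hr1 : r ≤ 1) :
    ∫ s in {s : ℝ | r < |s|}, Real.exp (2 * |s|) * EE m s ≤ 60 * Real.exp (-((m - 4) * r ^ 2 / 4)) :=
  tail_aux hm (Real.exp_pos _).le (meas_far r) fun _ hs => EE_pt hm hr hr1 (le_of_lt hs)

theorem EE_tail' {m ρ : ℝ} (hm : 4 ≤ m) (hρ : 1 ≤ ρ) :
    ∫ s in {s : ℝ | ρ < |s|}, Real.exp (2 * |s|) * EE m s ≤ 60 * Real.exp (-((m - 4) * ρ / 4)) :=
  tail_aux hm (Real.exp_pos _).le (meas_far ρ) fun _ hs => EE_pt' hm hρ (le_of_lt hs)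

theorem tail_small {m : ℝ} (hm : 64 ≤ m) : 60 * Real.exp (-((m - 4) * 1 ^ 2 / 4)) ≤ 1 / 4 * (1 / (2 * √m)) := by
  have hsm : 8 ≤ √m := by
    rw [show (8:ℝ) = √64 by rw [show (64:ℝ) = 8 ^ 2 by norm_num, Real.sqrt_sq (by norm_num)]]
    exact Real.sqrt_le_sqrt hm
  have hs0 : 0 < √m := by linarith
  have hsq : √m * √m = m := Real.mul_self_sqrt (by linarith)
  set x : ℝ := (m - 4) * 1 ^ 2 / 4 with hx
  have hx15 : 15 ≤ x := by rw [hx]; linarith
  have hm1 : √m ≤ (x + 1) / 2 := by rw [hx]; nlinarith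
  have h1 : (16384 : ℝ) * (x - 13) ≤ Real.exp x := by
    have e1 : Real.exp x = Real.exp 1 ^ 14 * Real.exp (x - 14) := by
      rw [← Real.exp_nat_mul, ← Real.exp_add]
      congr 1
      push_cast
      ring
    have e2 : (16384 : ℝ) ≤ Real.exp 1 ^ 14 := by
      have : (2:ℝ) ≤ Real.exp 1 := by linarith [Real.exp_one_gt_d9]
      calc (16384 : ℝ) = 2 ^ 14 := by norm_num
        _ ≤ _ := pow_le_pow_left₀ (by norm_num) this 14
    have e3 : x - 13 ≤ Real.exp (x - 14) := by linarith [Real.add_one_le_exp (x - 14)]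
    rw [e1]
    exact mul_le_mul e2 e3 (by linarith) (by positivity)
  rw [Real.exp_neg]
  have h2 : 0 < Real.exp x := Real.exp_pos x
  rw [← div_eq_mul_inv, div_le_iff₀ h2]
  have h3 : 1 / 4 * (1 / (2 * √m)) * Real.exp x = Real.exp x / (8 * √m) := by
    field_simp
    norm_num
  rw [h3, le_div_iff₀ (by positivity)]
  nlinarith

/-- the common part -/
theorem split_aux {m A : ℝ} (hm : 64 ≤ m) {g : ℝ → ℝ} (hg : Continuous g) (h0 : ∀ s, 0 ≤ g s) (h1 : ∀ s, |s| ≤ 1 → g s ≤ A)
    (h2 : ∀ s, g s ≤ Real.exp (2 * |s|)) (hA : 0 ≤ A) : ∫ s, g s * EE m s ≤ A * I0 m + 1 / 4 * I0 m := by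
  have hm4 : 4 ≤ m := by linarith
  have hi : Integrable (fun s => g s * EE m s) := by
    refine Integrable.mono' (EE_int hm4) (hg.mul (EE_cont m)).aestronglyMeasurable (Filter.Eventually.of_forall fun s => ?_)
    rw [Real.norm_eq_abs, abs_of_nonneg (mul_nonneg (h0 s) (EE_pos _ _).le)]
    exact mul_le_mul_of_nonneg_right (h2 s) (EE_pos _ _).le
  have hc : {s : ℝ | 1 < |s|}ᶜ = {s : ℝ | |s| ≤ 1} := by
    ext s
    simp
  rw [← integral_add_compl (meas_far 1) hi, hc]
  have hms : MeasurableSet {s : ℝ | |s| ≤ 1} := by rw [← hc]; exact (meas_far 1).compl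
  have e1 : ∫ s in {s : ℝ | 1 < |s|}, g s * EE m s ≤ 1 / 4 * I0 m := by
    calc ∫ s in {s : ℝ | 1 < |s|}, g s * EE m s ≤ ∫ s in {s : ℝ | 1 < |s|}, Real.exp (2 * |s|) * EE m s := by
          apply setIntegral_mono_on hi.integrableOn (EE_int hm4).integrableOn (meas_far 1)
          intro s _
          exact mul_le_mul_of_nonneg_right (h2 s) (EE_pos _ _).le
      _ ≤ 60 * Real.exp (-((m - 4) * 1 ^ 2 / 4)) := EE_tail hm4 one_pos le_rfl
      _ ≤ 1 / 4 * (1 / (2 * √m)) := tail_small hm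
      _ ≤ _ := mul_le_mul_of_nonneg_left (I0_ge hm4) (by norm_num)
  have e2 : ∫ s in {s : ℝ | |s| ≤ 1}, g s * EE m s ≤ A * I0 m := by
    calc ∫ s in {s : ℝ | |s| ≤ 1}, g s * EE m s ≤ ∫ s in {s : ℝ | |s| ≤ 1}, A * EE m s := by
          apply setIntegral_mono_on hi.integrableOn ((EE_int0 hm4).const_mul A).integrableOn hms
          intro s hs
          exact mul_le_mul_of_nonneg_right (h1 s hs) (EE_pos _ _).le
      _ ≤ ∫ s, A * EE m s := setIntegral_le_integral ((EE_int0 hm4).const_mul A)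
          (Filter.Eventually.of_forall fun s => mul_nonneg hA (EE_pos _ _).le)
      _ = _ := by rw [integral_const_mul]; rfl
  linarith

theorem I0_nonneg (m : ℝ) : 0 ≤ I0 m := integral_nonneg fun s => (EE_pos m s).le

/-- `∫ e^{-s/2} EE ≤ 2 I0` -/
theorem EE_half {m : ℝ} (hm : 64 ≤ m) : ∫ s, Real.exp (-(s / 2)) * EE m s ≤ 2 * I0 m := by
  have h := split_aux (A := 7 / 4) hm (g := fun s => Real.exp (-(s / 2))) (by fun_prop) (fun s => (Real.exp_pos _).le)
    (fun s hs => ?_) (fun s => ?_) (by norm_num)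
  · linarith
  · have h1 : -(s / 2) ≤ 1 / 2 := by linarith [(abs_le.1 hs).1]
    have h2 : Real.exp (1 / 2) ^ 2 = Real.exp 1 := by rw [← Real.exp_nat_mul]; norm_num
    have h3 := Real.exp_one_lt_d9
    have h4 : Real.exp (1 / 2) ≤ 7 / 4 := by
      by_contra hc
      push Not at hc
      nlinarith
    exact (Real.exp_le_exp.2 h1).trans h4
  · apply Real.exp_le_exp.2
    have := neg_abs_le s
    have := abs_nonneg s
    linarith

/-- `∫ e^{|s|} EE ≤ 3 I0` -/
theorem EE_one {m : ℝ} (hm : 64 ≤ m) : ∫ s, Real.exp |s| * EE m s ≤ 3 * I0 m := by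
  have h := split_aux (A := 11 / 4) hm (g := fun s => Real.exp |s|) (by fun_prop) (fun s => (Real.exp_pos _).le)
    (fun s hs => ?_) (fun s => ?_) (by norm_num)
  · linarith
  · have h3 := Real.exp_one_lt_d9
    exact (Real.exp_le_exp.2 hs).trans (by linarith)
  · apply Real.exp_le_exp.2
    have := abs_nonneg s
    linarith

theorem EE_osc {m r t : ℝ} (hm : 4 ≤ m) (hr : 0 < r) :
    ‖(∫ s in {s : ℝ | |s| ≤ r}, Complex.exp ((t * s : ℝ) * Complex.I) * (EE m s : ℂ)) - ((∫ s in {s : ℝ | |s| ≤ r}, EE m s : ℝ) : ℂ)‖ ≤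
      |t| * r * I0 m := by
  have hms : MeasurableSet {s : ℝ | |s| ≤ r} := measurableSet_le (by fun_prop) measurable_const
  have hi := EE_int0 hm
  have hiC : Integrable (fun s => (EE m s : ℂ)) := hi.ofReal
  have hi1 : Integrable (fun s : ℝ => Complex.exp ((t * s : ℝ) * Complex.I) * (EE m s : ℂ)) := by
    refine Integrable.mono' hi ?_ (Filter.Eventually.of_forall fun s => ?_)
    · exact ((by fun_prop : Continuous fun s : ℝ => Complex.exp ((t * s : ℝ) * Complex.I)).mul
        (Complex.continuous_ofReal.comp (EE_cont m))).aestronglyMeasurable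
    · rw [norm_mul, Complex.norm_exp_ofReal_mul_I, one_mul, Complex.norm_real, Real.norm_eq_abs,
        abs_of_pos (EE_pos m s)]
  rw [← integral_complex_ofReal, ← integral_sub hi1.integrableOn hiC.integrableOn]
  calc ‖∫ s in {s : ℝ | |s| ≤ r}, (Complex.exp ((t * s : ℝ) * Complex.I) * (EE m s : ℂ) - (EE m s : ℂ))‖
      ≤ ∫ s in {s : ℝ | |s| ≤ r}, |t| * r * EE m s := by
        apply norm_integral_le_of_norm_le ((hi.const_mul _).integrableOn)
        rw [ae_restrict_iff' hms]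
        apply Filter.Eventually.of_forall
        intro s hs
        have e : Complex.exp ((t * s : ℝ) * Complex.I) * (EE m s : ℂ) - (EE m s : ℂ) =
            (Complex.exp ((t * s : ℝ) * Complex.I) - 1) * (EE m s : ℂ) := by ring
        rw [e, norm_mul, Complex.norm_real, Real.norm_eq_abs, abs_of_pos (EE_pos m s)]
        apply mul_le_mul_of_nonneg_right _ (EE_pos m s).le
        have h1 : ‖Complex.exp ((t * s : ℝ) * Complex.I) - 1‖ ≤ |t * s| := by
          have := Real.norm_exp_I_mul_ofReal_sub_one_le (x := t * s)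
          rw [mul_comm, Real.norm_eq_abs] at this
          exact this
        refine h1.trans ?_
        rw [abs_mul]
        exact mul_le_mul_of_nonneg_left hs (abs_nonneg t)
    _ ≤ ∫ s, |t| * r * EE m s := setIntegral_le_integral (hi.const_mul _)
        (Filter.Eventually.of_forall fun s => mul_nonneg (mul_nonneg (abs_nonneg t) hr.le) (EE_pos m s).le)
    _ = _ := by rw [integral_const_mul]; rfl

end Pool.Agent.Helper47.ST
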